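import Pool.Agent.VIS.Final3

set_option autoImplicit false

namespace Pool.Agent.Results.MP_250ab9_nt.NewtonSlopes

open Polynomial

/-- `θ`, `P`, `B` form a virtual curve of genus `g` over `F_q`: an integral polynomial
`P = ∏ (X² - 2 √q cos θ_i X + q)` of degree `2 g` (the characteristic polynomial of Frobenius), and
natural numbers `B d`, `d ≥ 1` (the numbers of closed points of degree `d`), with
`∑_{d ∣ m} d B_d = q^m + 1 - ∑_i 2 q^(m/2) cos (m θ_i)` for every `m ≥ 1`. Every curve over `F_q` gives a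
virtual curve. -/
def IsVirtualCurve (q g : ℕ) (θ : Fin g → ℝ) (P : ℤ[X]) (B : ℕ → ℕ) : Prop :=
  P.map (Int.castRingHom ℝ) =
      ∏ i, (X ^ 2 - C (2 * √(q : ℝ) * Real.cos (θ i)) * X + C (q : ℝ)) ∧
    ∀ m : ℕ, 1 ≤ m → ((∑ d ∈ m.divisors, d * B d : ℕ) : ℝ) =
      (q : ℝ) ^ m + 1 - ∑ i, 2 * √(q : ℝ) ^ m * Real.cos (m * θ i)

/-- All the slopes of the Newton polygon of `P` (normalised by `q`) are at least `j / m`: the `m`-th power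
of the coefficient of `X^(2g-k)` is divisible by `q^(j k)`. -/
def SlopesAtLeast (q g m j : ℕ) (P : ℤ[X]) : Prop :=
  ∀ k ≤ 2 * g, (q : ℤ) ^ (j * k) ∣ P.coeff (2 * g - k) ^ m

theorem result (q m j : ℕ) (hq : 2 ≤ q) (hm : 1 ≤ m) :
    -- slopes at least `j / m < 1 / 2` and many points
    (2 * j < m → ∀ c : ℝ, 0 ≤ c → c < √(q : ℝ) - 1 →
      c * Real.log (1 + (√(q : ℝ))⁻¹) < (1 - 2 * j / m) * Real.log (√(q : ℝ)) →
      ∃ g₀ : ℕ, ∀ g : ℕ, g₀ ≤ g → ∃ (θ : Fin g → ℝ) (P : ℤ[X]) (B : ℕ → ℕ),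
        IsVirtualCurve q g θ P B ∧ SlopesAtLeast q g m j P ∧ c * g ≤ B 1) ∧
    -- the restriction imposed by the slopes
    (2 * j ≤ m → ∀ ε : ℝ, 0 < ε → ∃ g₀ : ℕ, ∀ g : ℕ, g₀ ≤ g →
      ∀ (θ : Fin g → ℝ) (P : ℤ[X]) (B : ℕ → ℕ), IsVirtualCurve q g θ P B → SlopesAtLeast q g m j P →
        (B 1 : ℝ) ^ 2 ≤ ((1 - 2 * j / m) * Real.log q / (- Real.log (1 - 1 / q)) + ε) * (g : ℝ) ^ 2) ∧
    (2 * j ≤ m → ∀ (N : ℕ) (ε : ℝ), 0 < ε → ∃ g₀ : ℕ, ∀ g : ℕ, g₀ ≤ g →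
      ∀ (θ : Fin g → ℝ) (P : ℤ[X]) (B : ℕ → ℕ), IsVirtualCurve q g θ P B → SlopesAtLeast q g m j P →
        ∑ n ∈ Finset.Icc 1 N, ((∑ d ∈ n.divisors, d * B d : ℕ) : ℝ) ^ 2 / (n * (q : ℝ) ^ n) ≤
          ((1 - 2 * j / m) * Real.log q + ε) * (g : ℝ) ^ 2) := by
  refine ⟨?_, ?_, ?_⟩
  · intro hj c hc0 hcs hcl
    obtain ⟨g₀, h⟩ := Pool.Agent.VIS.f_FIH q m j c hq hm hj hc0 hcs hcl
    refine ⟨g₀, fun g hg => ?_⟩
    obtain ⟨θ, P, B, h1, h2, h3, h4⟩ := h g hg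
    exact ⟨θ, P, B, ⟨h1, h2⟩, h3, h4⟩
  · intro hj ε hε
    obtain ⟨g₀, h⟩ := Pool.Agent.VIS.f_SLB q m j ε hq hm hj hε
    exact ⟨g₀, fun g hg θ P B hC hs => h g hg θ P B hC.1 hC.2
      (Pool.Agent.VIS.t_NWP q g m j θ P (by omega) hm hC.1 hs)⟩
  · intro hj N ε hε
    obtain ⟨g₀, h⟩ := Pool.Agent.VIS.f_SLN q m j N ε hq hm hj hε
    exact ⟨g₀, fun g hg θ P B hC hs => h g hg θ P B hC.1 hC.2
      (Pool.Agent.VIS.t_NWP q g m j θ P (by omega) hm hC.1 hs)⟩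

end Pool.Agent.Results.MP_250ab9_nt.NewtonSlopes
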