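import Pool.Agent.VIS.Final2

set_option autoImplicit false

namespace Pool.Agent.Results.MP_250ab9_nt.SlopePart

open Polynomial

/-- `θ`, `P`, `B` form a virtual curve of genus `g` over `F_q`: an integral polynomial
`P = ∏ (X² - 2 √q cos θ_i X + q)` of degree `2 g` (the characteristic polynomial of Frobenius, with the
eigenvalues `√q e^(± i θ_i)`), and natural numbers `B d`, `d ≥ 1` (the numbers of closed points of
degree `d`), with `∑_{d ∣ m} d B_d = q^m + 1 - ∑_i 2 q^(m/2) cos (m θ_i)` for every `m ≥ 1`. Every curve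
over `F_q` gives a virtual curve. -/
def IsVirtualCurve (q g : ℕ) (θ : Fin g → ℝ) (P : ℤ[X]) (B : ℕ → ℕ) : Prop :=
  P.map (Int.castRingHom ℝ) =
      ∏ i, (X ^ 2 - C (2 * √(q : ℝ) * Real.cos (θ i)) * X + C (q : ℝ)) ∧
    ∀ m : ℕ, 1 ≤ m → ((∑ d ∈ m.divisors, d * B d : ℕ) : ℝ) =
      (q : ℝ) ^ m + 1 - ∑ i, 2 * √(q : ℝ) ^ m * Real.cos (m * θ i)

/-- The dimension of the part of the Jacobian all of whose slopes are at least `j / m`: the number of
`i` such that `α^m / q^j` is an algebraic integer, `α = √q e^(i θ_i)` the Frobenius eigenvalue. -/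
noncomputable def slopeDim (q g m j : ℕ) (θ : Fin g → ℝ) : ℕ :=
  Nat.card {i : Fin g //
    IsIntegral ℤ ((((√(q : ℝ) : ℝ) : ℂ) * Complex.exp (θ i * Complex.I)) ^ m / (q : ℂ) ^ j)}

/-- The dimension of the supersingular part: the number of `i` with `e^(i θ_i)` a root of unity. -/
noncomputable def ssDim (g : ℕ) (θ : Fin g → ℝ) : ℕ :=
  Nat.card {i : Fin g // ∃ n : ℕ, 1 ≤ n ∧ Real.cos (n * θ i) = 1}

open Classical in
theorem result (q : ℕ) (hq : 2 ≤ q) :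
    -- the part of slopes at least `j / m`
    (∀ m j : ℕ, 1 ≤ m → 2 * j ≤ m → ∀ (R : ℕ) (ρ ε : ℝ), 0 < ρ → ρ < 1 → 0 < ε →
      ∃ g₀ : ℕ, ∀ g : ℕ, g₀ ≤ g → ∀ (θ : Fin g → ℝ) (P : ℤ[X]) (B : ℕ → ℕ),
        IsVirtualCurve q g θ P B →
        ∑ r ∈ Finset.Icc 1 R, (r : ℝ) * B r * ρ ^ r / (√(q : ℝ) ^ r - ρ ^ r) ≤
          g - slopeDim q g m j θ * (1 - ρ * √((1 - 2 * j / m) * Real.log q) / (1 - ρ ^ 2)) +
            ε * g) ∧
    -- the supersingular part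
    (∀ (R : ℕ) (ε : ℝ), 0 < ε → ∃ g₀ : ℕ, ∀ g : ℕ, g₀ ≤ g →
      ∀ (θ : Fin g → ℝ) (P : ℤ[X]) (B : ℕ → ℕ), IsVirtualCurve q g θ P B →
        ∑ r ∈ Finset.Icc 1 R, (r : ℝ) * B r / (√(q : ℝ) ^ r - 1) ≤ g - ssDim g θ + ε * g) := by
  refine ⟨?_, ?_⟩
  · intro m j hm hj R ρ ε hρ0 hρ1 hε
    obtain ⟨g₀, h⟩ := Pool.Agent.VIS.f_LSL q m j R ρ ε hq hm hj hρ0 hρ1 hε
    refine ⟨g₀, fun g hg θ P B hC => ?_⟩
    have h1 := h g hg θ P B (Finset.univ.filter (fun i => Pool.Agent.VIS.SL q m j (θ i))) hC.1 hC.2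
      (fun i => by simp)
    have h2 : slopeDim q g m j θ =
        (Finset.univ.filter (fun i => Pool.Agent.VIS.SL q m j (θ i))).card := by
      unfold slopeDim
      rw [Nat.card_eq_fintype_card, Fintype.card_subtype]
      rfl
    rw [h2]
    exact h1
  · intro R ε hε
    obtain ⟨g₀, h⟩ := Pool.Agent.VIS.f_SSB q R ε hq hε
    refine ⟨g₀, fun g hg θ P B hC => ?_⟩
    have h1 := h g hg θ P B (Finset.univ.filter (fun i => Pool.Agent.VIS.SL q 2 1 (θ i))) hC.1 hC.2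
      (fun i => by simp)
    have h2 : ssDim g θ ≤ (Finset.univ.filter (fun i => Pool.Agent.VIS.SL q 2 1 (θ i))).card := by
      unfold ssDim
      rw [Nat.card_eq_fintype_card, Fintype.card_subtype]
      refine Finset.card_le_card fun i hi => ?_
      rw [Finset.mem_filter] at hi ⊢
      exact ⟨hi.1, Pool.Agent.VIS.t_SLS q (θ i) (by omega) hi.2⟩
    have h3 : (ssDim g θ : ℝ) ≤
        ((Finset.univ.filter (fun i => Pool.Agent.VIS.SL q 2 1 (θ i))).card : ℝ) := by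
      exact_mod_cast h2
    linarith

end Pool.Agent.Results.MP_250ab9_nt.SlopePart
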