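import Pool.Agent.VIR.Final

set_option autoImplicit false

namespace Pool.Agent.Results.MP_250ab9_nt.VirtualCurves

open Polynomial Filter

/-- `θ`, `P`, `B` form a virtual curve of genus `g` over `F_q`: an integral polynomial
`P = ∏ (X² - 2 √q cos θ_i X + q)` of degree `2 g` (the characteristic polynomial of Frobenius), and
natural numbers `B d`, `d ≥ 1` (the numbers of closed points of degree `d`), with
`∑_{d ∣ m} d B_d = q^m + 1 - ∑_i 2 q^(m/2) cos (m θ_i)` for every `m ≥ 1`. -/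
def IsVirtualCurve (q g : ℕ) (θ : Fin g → ℝ) (P : ℤ[X]) (B : ℕ → ℕ) : Prop :=
  P.map (Int.castRingHom ℝ) =
      ∏ i, (X ^ 2 - C (2 * √(q : ℝ) * Real.cos (θ i)) * X + C (q : ℝ)) ∧
    ∀ m : ℕ, 1 ≤ m → ((∑ d ∈ m.divisors, d * B d : ℕ) : ℝ) =
      (q : ℝ) ^ m + 1 - ∑ i, 2 * √(q : ℝ) ^ m * Real.cos (m * θ i)

theorem result (q : ℕ) (hq : 2 ≤ q) :
    -- the virtual Ihara constant is at least `√q - 1`
    (∃ (g₀ : ℕ) (θ : (g : ℕ) → Fin g → ℝ) (P : ℕ → ℤ[X]) (B : ℕ → ℕ → ℕ),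
      (∀ g, g₀ ≤ g → IsVirtualCurve q g (θ g) (P g) (B g) ∧ Irreducible (P g) ∧
        (q : ℤ) ∣ (P g).coeff g - 1) ∧
      Tendsto (fun g : ℕ => (B g 1 : ℝ) / g) atTop (nhds (√(q : ℝ) - 1))) ∧
    -- all limits permitted by the basic inequality occur
    (∀ β : ℕ → ℝ, (∀ r, 0 ≤ β r) →
      (∀ R : ℕ, ∑ r ∈ Finset.Icc 1 R, r * β r / (√(q : ℝ) ^ r - 1) ≤ 1) →
      ∃ (g₀ : ℕ) (θ : (g : ℕ) → Fin g → ℝ) (P : ℕ → ℤ[X]) (B : ℕ → ℕ → ℕ),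
        (∀ g, g₀ ≤ g → IsVirtualCurve q g (θ g) (P g) (B g) ∧ Irreducible (P g) ∧
          (q : ℤ) ∣ (P g).coeff g - 1) ∧
        ∀ r, 1 ≤ r → Tendsto (fun g : ℕ => (B g r : ℝ) / g) atTop (nhds (β r))) ∧
    -- and no other (the basic inequality)
    (∀ (R : ℕ) (ε : ℝ), 0 < ε → ∃ g₀ : ℕ, ∀ g : ℕ, g₀ ≤ g →
      ∀ (θ : Fin g → ℝ) (P : ℤ[X]) (B : ℕ → ℕ), IsVirtualCurve q g θ P B →
        ∑ r ∈ Finset.Icc 1 R, (r : ℝ) * B r / (√(q : ℝ) ^ r - 1) ≤ (1 + ε) * g) := by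
  have hs : 1 < √(q : ℝ) := Pool.Agent.VIR.one_lt_sqrt hq
  have key : ∀ β : ℕ → ℝ, (∀ r, 0 ≤ β r) →
      (∀ R : ℕ, ∑ r ∈ Finset.Icc 1 R, r * β r / (√(q : ℝ) ^ r - 1) ≤ 1) →
      ∃ (g₀ : ℕ) (θ : (g : ℕ) → Fin g → ℝ) (P : ℕ → ℤ[X]) (B : ℕ → ℕ → ℕ),
        (∀ g, g₀ ≤ g → IsVirtualCurve q g (θ g) (P g) (B g) ∧ Irreducible (P g) ∧
          (q : ℤ) ∣ (P g).coeff g - 1) ∧
        ∀ r, 1 ≤ r → Tendsto (fun g : ℕ => (B g r : ℝ) / g) atTop (nhds (β r)) := by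
    intro β hβ hR
    obtain ⟨g₀, θ, P, B, h1, h2⟩ := Pool.Agent.VIR.f_LIM q β hq hβ hR
    refine ⟨g₀, θ, P, B, fun g hg => ?_, h2⟩
    obtain ⟨h3, h4, h5, h6⟩ := h1 g hg
    exact ⟨⟨h3, h4⟩, h5, h6⟩
  refine ⟨?_, key, ?_⟩
  · obtain ⟨g₀, θ, P, B, h1, h2⟩ := key (fun r => if r = 1 then √(q : ℝ) - 1 else 0)
      (fun r => by
        split_ifs
        · linarith
        · exact le_refl 0)
      (fun R => by
        calc ∑ r ∈ Finset.Icc 1 R, (r : ℝ) * (if r = 1 then √(q : ℝ) - 1 else 0) /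
              (√(q : ℝ) ^ r - 1) 
            = ∑ r ∈ Finset.Icc 1 R, if r = 1 then (1 : ℝ) else 0 := by
              refine Finset.sum_congr rfl fun r _ => ?_
              by_cases h : r = 1
              · rw [if_pos h, if_pos h, h, pow_one, Nat.cast_one, one_mul]
                exact div_self (by linarith)
              · rw [if_neg h, if_neg h, mul_zero, zero_div]
          _ ≤ 1 := by
              rw [Finset.sum_ite_eq']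
              split_ifs <;> norm_num)
    refine ⟨g₀, θ, P, B, h1, ?_⟩
    have h3 := h2 1 le_rfl
    rwa [if_pos rfl] at h3
  · intro R ε hε
    obtain ⟨g₀, h⟩ := Pool.Agent.VIR.f_UPL q R ε hq hε
    exact ⟨g₀, fun g hg θ P B hC => h g hg θ B hC.2⟩

end Pool.Agent.Results.MP_250ab9_nt.VirtualCurves
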